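import Pool.Agent.Q207.AF.Fin

/-!
# The degree-bounded statement at almost all algebraic points of a family of varieties

Near the point `x = 0` of the base `S ⊂ P¹` the entries of the period matrix of a family of varieties over `S` are
polynomials `P_a` in `log (1/x)` and in G-functions `h_1(x), ..., h_r(x)` with rational coefficients, whose coefficients
are arbitrary complex numbers (periods of the limit motive). For a connected family, for almost all algebraic integers
`α` of degree at most `m`, a polynomial `F` of degree `≤ δ` over a number field of degree `≤ d` vanishes at the period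
matrix of the fibre over `1/α` if and only if it vanishes on the whole fibre over `1/α` of the `ℚ̄`-Zariski closure of
the graph of the period matrix.

The proof. (1) Outside a sparse set of `α` the polynomial `F(P(ℓ, h(1/α)))` vanishes identically on `ℂ` times the fibre
of the closure of the graph of `h` (starting file MP_12eca1_ag.AlgebraicFibres, with coefficients in the products of the
field and the space of the constants). (2) For all but finitely many `x` in `ℚ̄` all relations over `ℚ̄` between the
monomials in the `P_a`, which hold identically on this set, are specialisations of functional relations over `ℚ̄[x]`: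
otherwise the ultraproduct of a sequence of such relations is a relation over an extension of `ℚ̄(x)`, which holds on
the generic fibre (Nullstellensatz over the ultrapower and connectedness), hence a combination of functional relations.
(3) Conversely the closure contains the period matrices: analytic continuation, and the logarithm is transcendental over
the functions which are meromorphic at `0`.
-/

set_option autoImplicit false

open PowerSeries

namespace Pool.Agent.Results.MP_290158_ag.AlgebraicFibresOfFamilies

/-- an integer polynomial as a power series with rational coefficients -/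
noncomputable def toQ (P : Polynomial ℤ) : PowerSeries ℚ := ((P.map (Int.castRingHom ℚ) : Polynomial ℚ) : PowerSeries ℚ)

/-- the power series `P(u^e)` -/
noncomputable def atPow (e : ℕ) (P : Polynomial ℤ) : PowerSeries ℂ :=
  ((Polynomial.expand ℂ e (P.map (Int.castRingHom ℂ)) : Polynomial ℂ) : PowerSeries ℂ)

/-- the matrices `G_s` over `ℤ[x]` with `T^s y^(s) = G_s y` for all solutions `y` of `T y' = A y` -/
noncomputable def iter {r : ℕ} (T : Polynomial ℤ) (A : Fin r → Fin r → Polynomial ℤ) : ℕ → Fin r → Fin r → Polynomial ℤ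
  | 0 => fun i j => if i = j then 1 else 0
  | s + 1 => fun i j => T * Polynomial.derivative (iter T A s i j) + ∑ l, iter T A s i l * A l j -
      (s : Polynomial ℤ) * (Polynomial.derivative T * iter T A s i j)

/-- The system `T y' = A y` has a fundamental matrix of solutions of the form `u^(-M) ∑_n Φ_n(u) (log u)^n` with
`u^e = x` and convergent power series `Φ_n`: the point `0` is an ordinary point or a regular singularity with rational
exponents. -/
def QuasiUnipotent {r : ℕ} (T : Polynomial ℤ) (A : Fin r → Fin r → Polynomial ℤ) : Prop :=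
  ∃ (e M : ℕ) (K : ℝ) (Φ : Matrix (Fin r) (Fin r) (Polynomial (PowerSeries ℂ))), 1 ≤ e ∧ Φ.det ≠ 0 ∧
    (∀ i j n m, ‖coeff m ((Φ i j).coeff n)‖ ≤ K ^ (m + 1)) ∧
    ∀ i j n, atPow e T * (X * PowerSeries.derivative ℂ ((Φ i j).coeff n) +
        ((n : PowerSeries ℂ) + 1) * (Φ i j).coeff (n + 1) - (M : PowerSeries ℂ) * (Φ i j).coeff n) =
      (e : PowerSeries ℂ) * X ^ e * ∑ l, atPow e (A i l) * (Φ l j).coeff n

/-- `h_1, ..., h_r` are G-functions with rational coefficients which solve the differential system `T y' = A y`, with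
the conditions of Siegel and Galochkin, and the system is regular with rational exponents at `0`. -/
structure GFamily {r : ℕ} (T : Polynomial ℤ) (A : Fin r → Fin r → Polynomial ℤ) (h : Fin r → PowerSeries ℚ) : Prop where
  /-- the denominator is not zero -/
  T_ne : T ≠ 0
  /-- the differential equations -/
  ode : ∀ i, toQ T * PowerSeries.derivative ℚ (h i) = ∑ j, toQ (A i j) * h j
  /-- the coefficients have geometric growth -/
  size : ∃ C : ℝ, ∀ i m, |((coeff m (h i) : ℚ) : ℝ)| ≤ C ^ (m + 1)
  /-- the common denominators of the coefficients have geometric growth -/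
  den : ∃ C : ℝ, ∀ m : ℕ, ∃ d : ℕ, 0 < d ∧ (d : ℝ) ≤ C ^ (m + 1) ∧ ∀ i, ∀ j ≤ m, ∃ a : ℤ, (d : ℚ) * coeff j (h i) = a
  /-- Galochkin's condition: the common denominators of the matrices `G_s / s!` have geometric growth -/
  galochkin : ∃ C : ℝ, ∀ m : ℕ, ∃ d : ℕ, 0 < d ∧ (d : ℝ) ≤ C ^ (m + 1) ∧ ∀ s ≤ m, ∀ i j,
    ∃ H : Polynomial ℤ, (d : Polynomial ℤ) * iter T A s i j = (s.factorial : Polynomial ℤ) * H
  /-- the local exponents at `0` are rational and the singularity is regular -/
  regular : QuasiUnipotent T A

section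
variable {r n : ℕ}

/-- the quotient `A(h) / B(h)` of formal power series -/
noncomputable def quotient (h : Fin r → PowerSeries ℚ) (A B : MvPolynomial (Fin r) (Polynomial ℚ)) :
    FractionRing (PowerSeries ℚ) :=
  algebraMap (PowerSeries ℚ) (FractionRing (PowerSeries ℚ)) (MvPolynomial.aeval h A) /
    algebraMap (PowerSeries ℚ) (FractionRing (PowerSeries ℚ)) (MvPolynomial.aeval h B)

/-- `f` is a rational function of `x` -/
def IsRational (f : FractionRing (PowerSeries ℚ)) : Prop :=
  ∃ a b : Polynomial ℚ, b ≠ 0 ∧ f = algebraMap (Polynomial ℚ) (FractionRing (PowerSeries ℚ)) a /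
    algebraMap (Polynomial ℚ) (FractionRing (PowerSeries ℚ)) b

/-- The family is connected: every element of the field `ℚ(x, h_1, ..., h_r)` which is algebraic over `ℚ(x)` is in
`ℚ(x)`; the elements of this field are the quotients `A(h) / B(h)`, where `A`, `B` are polynomials over `ℚ[x]`. -/
def Connected (h : Fin r → PowerSeries ℚ) : Prop := ∀ A B : MvPolynomial (Fin r) (Polynomial ℚ),
  IsAlgebraic (Polynomial ℚ) (quotient h A B) → IsRational (quotient h A B)

/-- the algebraic integers of degree at most `m` all of whose conjugates have absolute value at most `T` -/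
def integers (m T : ℕ) : Set ℂ :=
  {α | IsIntegral ℤ α ∧ (minpoly ℚ α).natDegree ≤ m ∧ ∀ z : ℂ, Polynomial.aeval z (minpoly ℚ α) = 0 → ‖z‖ ≤ T}

/-- the field of all algebraic numbers -/
abbrev AlgebraicNumbers : Type := algebraicClosure ℚ ℂ

/-- the numbers `P_a(ℓ, h(1 / α))`, where `ℓ` is a logarithm of `α` -/
noncomputable def period (h : Fin r → PowerSeries ℚ) (P : Fin n → MvPolynomial (Option (Fin r)) ℂ) (α ℓ : ℂ) (a : Fin n) : ℂ :=
  MvPolynomial.eval (fun o => o.elim ℓ fun i => ∑' k : ℕ, ((coeff k (h i) : ℚ) : ℂ) * (1 / α) ^ k) (P a)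

/-- the value `R(x; Z)` of a polynomial `R` in `n` variables over `ℚ̄[x]` -/
noncomputable def evalAt (x : ℂ) (Z : Fin n → ℂ) (R : MvPolynomial (Fin n) (Polynomial AlgebraicNumbers)) : ℂ :=
  MvPolynomial.eval₂ (Polynomial.aeval x : Polynomial AlgebraicNumbers →ₐ[AlgebraicNumbers] ℂ).toRingHom Z R

/-- `R` vanishes on the graph of the period functions: `R(1/s; P(log s, h(1/s))) = 0` for all large real `s` -/
def VanishesOnGraph (h : Fin r → PowerSeries ℚ) (P : Fin n → MvPolynomial (Option (Fin r)) ℂ)
    (R : MvPolynomial (Fin n) (Polynomial AlgebraicNumbers)) : Prop :=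
  ∃ τ : ℝ, ∀ s : ℝ, τ < s → evalAt (1 / (s : ℂ)) (period h P s (Real.log s)) R = 0

/-- the fibre over `x = 1 / α` of the `ℚ̄`-Zariski closure of the graph of the period functions -/
def ClosureFibre (h : Fin r → PowerSeries ℚ) (P : Fin n → MvPolynomial (Option (Fin r)) ℂ) (α : ℂ) : Set (Fin n → ℂ) :=
  {Z | ∀ R : MvPolynomial (Fin n) (Polynomial AlgebraicNumbers), VanishesOnGraph h P R → evalAt (1 / α) Z R = 0}

/-- number fields in `ℂ` of degree at most `d` -/
def IsNumberField (d : ℕ) (L : IntermediateField ℚ ℂ) : Prop := FiniteDimensional ℚ L ∧ Module.finrank ℚ L ≤ d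

/-- The degree-`δ` statement over the fibre at `1 / α` for all number fields of degree at most `d`: a polynomial `F` of
degree `≤ δ` over such a field vanishes at the numbers `P_a(ℓ, h(1 / α))`, where `ℓ` is any logarithm of `α`, if and only
if it vanishes on the whole `ClosureFibre`. -/
def DegreeStatement (h : Fin r → PowerSeries ℚ) (P : Fin n → MvPolynomial (Option (Fin r)) ℂ) (δ d : ℕ) (α : ℂ) : Prop :=
  ∀ ℓ : ℂ, Complex.exp ℓ = α → ∀ L : IntermediateField ℚ ℂ, IsNumberField d L →
    ∀ F : MvPolynomial (Fin n) ℂ, (∀ s, F.coeff s ∈ L) → F.totalDegree ≤ δ →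
      (MvPolynomial.eval (period h P α ℓ) F = 0 ↔ ∀ Z ∈ ClosureFibre h P α, MvPolynomial.eval Z F = 0)

end

theorem iter_eq {r : ℕ} (T : Polynomial ℤ) (A : Fin r → Fin r → Polynomial ℤ) (s : ℕ) :
    iter T A s = Pool.Agent.Y120.GH.itm T A s := by
  induction s with
  | zero => rfl
  | succ s ih =>
    funext i j
    rw [iter, Pool.Agent.Y120.GH.itm, ih]

theorem qu_eq {r : ℕ} {T : Polynomial ℤ} {A : Fin r → Fin r → Polynomial ℤ} (h : QuasiUnipotent T A) :
    Pool.Agent.Y120.GH.QU0 T A := by
  obtain ⟨e, M, K, Φ, he, hdet, hc, heq⟩ := h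
  have he0 : e ≠ 0 := by omega
  refine ⟨e, he0, M, K, Φ, hc, fun i j n => ?_, hdet⟩
  have h1 := heq i j n
  simp only [atPow] at h1
  rw [Pool.Agent.Y120.GH.expand_poly he0]
  simp only [Pool.Agent.Y120.GH.expand_poly he0]
  exact h1

theorem GFamily.fam {r : ℕ} {T : Polynomial ℤ} {A : Fin r → Fin r → Polynomial ℤ} {h : Fin r → PowerSeries ℚ}
    (hG : GFamily T A h) : Pool.Agent.Y916.Af.GFam T A h := by
  refine ⟨hG.T_ne, hG.ode, hG.size, hG.den, ?_, qu_eq hG.regular⟩
  obtain ⟨C, hC⟩ := hG.galochkin
  refine ⟨C, fun m => ?_⟩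
  obtain ⟨d, h1, h2, h3⟩ := hC m
  refine ⟨d, h1, h2, fun s hs i' j' => ?_⟩
  rw [← iter_eq]
  exact h3 s hs i' j'

/-- Let `h = (h_1, ..., h_r)` be a connected family of G-functions and `m ≥ 1`. For all `n`, `δ`, `d`, `e` there are
`c > 0` and `C` such that for all tuples `P` of `n` complex polynomials of degree at most `e` in a logarithm and the
`h_i` there is a finite set `B` such that for all `T ≥ 1`, among all algebraic integers of degree at most `m` with
conjugates at most `T` in absolute value, the proportion of those outside `B` for which the degree-`δ` statement fails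
is at most `C T^(-c)`. -/
theorem result {r : ℕ} (T₀ : Polynomial ℤ) (A : Fin r → Fin r → Polynomial ℤ) (h : Fin r → PowerSeries ℚ)
    (hG : GFamily T₀ A h) (hc : Connected h) (m : ℕ) (hm : 1 ≤ m) (n δ d e : ℕ) :
    ∃ c : ℝ, 0 < c ∧ ∃ C : ℝ, ∀ P : Fin n → MvPolynomial (Option (Fin r)) ℂ, (∀ a, (P a).totalDegree ≤ e) →
      ∃ B : Set ℂ, B.Finite ∧ ∀ T : ℕ, 1 ≤ T → (integers m T).Finite ∧
        ({α : ℂ | α ∈ integers m T ∧ α ∉ B ∧ ¬ DegreeStatement h P δ d α}.ncard : ℝ) ≤
          C * (T : ℝ) ^ (-c) * ((integers m T).ncard : ℝ) :=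
  Q207.AF.main2 hG.fam hc m hm n δ d e

end Pool.Agent.Results.MP_290158_ag.AlgebraicFibresOfFamilies
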