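import Pool.Agent.Q138.PS.WO
import Pool.Agent.Q138.PS.WR
import Pool.Agent.Q138.AJ.R290158

/-!
# Period relations of bounded degree in hypergeometric families: the fibres which are close to given points

Let `β_1, …, β_m` be rational numbers which are not integers, `θ = z d/dz`, and let `Y(z)` be the period matrix of the hypergeometric
equation `(θ^(2 m) - z ∏_j (θ^2 - β_j^2)) f = 0` (`β = (1/5, 2/5)`: the mirror quintic family) and `J` its alternating form. Let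
`k, g ≥ 1` and `d, δ, D` be given. There is `c > 0` with the following property.

Let `X` be a metric space and `p` ANY map which associates a point of `X` to every `k`-tuple of algebraic integers of degree at
most `g`, for instance the tuple itself in `ℂ_ℓ ^ k` or in the projective space `ℙ ^ (k - 1) (ℂ)`. Let `(V_n, Ω_n)` be a sequence
of `ℚ`-spaces `V_n ⊆ ℂ` of dimension at most `D` and of `k`-tuples `Ω_n` of complex matrices. For every `τ > 0` there is a set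
`Z ⊆ X` of Hausdorff dimension at most `(k g (g + 1) / 2 - c) / τ` such that for every `z ∈ X` outside `Z`, all `n` and all `b`,
all but finitely many `k`-tuples `ξ` of algebraic integers of degree at most `g` with `dist (p(ξ), z) ≤ b house(ξ) ^ (-τ)` are not
exceptional: for all choices of the logarithms `l_i` of the `ξ_i` and all number fields `L` of degree at most `d`, every
polynomial of degree at most `δ` with coefficients in `L V_n` which vanishes at the point with the coordinates `l_i` and the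
entries of `Y(1 / ξ_i) Ω_(n, i)` vanishes on `ℂ ^ k × ∏_i Sp(J) Ω_(n, i)`.

For `g = 1`, `X = ℤ_ℓ ^ k` and `τ = 1` the dimension is at most `k - c`: for almost all `z ∈ ℤ_ℓ ^ k` all but finitely many of
the tuples `ξ` of the truncations of the `ℓ`-adic expansions of the `z_i` (at the same place) are not exceptional. For `g = 1`,
`X = ℙ ^ (k - 1) (ℝ)` and Dirichlet's exponent `τ = k / (k - 1)` it is less than `k - 1`: for almost all lines through the origin
all but finitely many of the integral points `ξ` with distance at most `b |ξ| ^ (- 1 / (k - 1))` from the line are not exceptional.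
-/

set_option autoImplicit false

namespace Pool.Agent.Results.MP_290158_ag.FibresNearGivenPoints

open Pool.Agent.Q138.PS Pool.Agent.Q138.AJ.R290158

/-- the house of a tuple of algebraic integers of degree at most `g`, rounded up: the smallest natural number which bounds all
conjugates of all coordinates -/
noncomputable def house {k : ℕ} (g : ℕ) (ξ : Fin k → ℂ) : ℕ := sInf {T : ℕ | ∀ i, House g T (ξ i)}

/-- the tuples of algebraic integers of degree at most `g` -/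
def Tup (k g : ℕ) : Set (Fin k → ℂ) := {ξ | ∃ T : ℕ, ∀ i, House g T (ξ i)}

theorem house_mono {g : ℕ} {T T' : ℕ} (h : T ≤ T') {ξ : ℂ} (hξ : House g T ξ) : House g T' ξ :=
  ⟨hξ.1, hξ.2.1, fun z hz => (hξ.2.2 z hz).trans (by exact_mod_cast h)⟩

theorem of_house {k g : ℕ} {ξ : Fin k → ℂ} (h : ξ ∈ Tup k g) {T : ℕ} (hT : house g ξ ≤ T) (i : Fin k) : House g T (ξ i) :=
  house_mono hT (Nat.sInf_mem (s := {T : ℕ | ∀ i, House g T (ξ i)}) h i)

theorem count_single (g : ℕ) : ∃ C : ℝ, 0 ≤ C ∧ ∀ T : ℕ, 1 ≤ T → {ξ : ℂ | House g T ξ}.Finite ∧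
    (({ξ : ℂ | House g T ξ}.ncard : ℕ) : ℝ) ≤ C * (T : ℝ) ^ (g * (g + 1) / 2) := by
  obtain ⟨C, hC, h⟩ := house_count g
  exact ⟨C, hC, fun T hT => h T (by exact_mod_cast hT)⟩

/-- **Theorem.** -/
theorem result {m : ℕ} (hm : 1 ≤ m) (β : Fin m → ℚ) (hβ : ∀ j, ∀ a : ℤ, β j ≠ a) (k g d δ D : ℕ) (hk : 1 ≤ k) (hg : 1 ≤ g) :
    ∃ c : ℝ, 0 < c ∧ ∀ (V : ℕ → Submodule ℚ ℂ), (∀ n, Module.Finite ℚ (V n) ∧ Module.finrank ℚ (V n) ≤ D) →
      ∀ Ω : ℕ → Fin k → Matrix (Fin (2 * m)) (Fin (2 * m)) ℂ,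
      ∀ (X : Type) [MetricSpace X] [MeasurableSpace X] [BorelSpace X] (p : (Fin k → ℂ) → X) (τ : ℝ), 0 < τ →
        ∃ Z : Set X, dimH Z ≤ ENNReal.ofReal ((k * (g * (g + 1) / 2) - c) / τ) ∧ ∀ z, z ∉ Z → ∀ (n : ℕ) (b : ℝ),
          {ξ : Fin k → ℂ | ξ ∈ Tup k g ∧ dist (p ξ) z ≤ b * (max 1 (house g ξ : ℝ)) ^ (-τ) ∧
            Exceptional δ d (V n) β (Ω n) ξ}.Finite := by
  classical
  obtain ⟨c, C, hc, h⟩ := (Pool.Agent.Q138.AJ.R290158.result hm β hβ).2.2 k g d δ D hg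
  obtain ⟨C', hC', h'⟩ := count_single g
  have hG : (((g * (g + 1) / 2 : ℕ)) : ℝ) = (g : ℝ) * (g + 1) / 2 := by
    have h1 : 2 * (g * (g + 1) / 2) = g * (g + 1) := Nat.mul_div_cancel' (Nat.even_mul_succ_self g).two_dvd
    have h2 : (2 : ℝ) * (((g * (g + 1) / 2 : ℕ)) : ℝ) = (g : ℝ) * (g + 1) := by exact_mod_cast h1
    linarith
  have hg1 : (1 : ℝ) ≤ g := by exact_mod_cast hg
  have hk1 : (1 : ℝ) ≤ k := by exact_mod_cast hk
  have hkG : (1 : ℝ) ≤ k * ((g : ℝ) * (g + 1) / 2) := by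
    have h3 : (1 : ℝ) ≤ (g : ℝ) * (g + 1) / 2 := by nlinarith
    nlinarith
  refine ⟨min c 1, lt_min hc one_pos, fun V hV Ω X _ _ _ p τ hτ => ?_⟩
  have key : ∀ n : ℕ, ∃ Z : Set X, dimH Z ≤ ENNReal.ofReal ((k * (g * (g + 1) / 2) - min c 1) / τ) ∧ ∀ z, z ∉ Z → ∀ b : ℝ,
      {ξ | ξ ∈ {ξ : Fin k → ℂ | ξ ∈ Tup k g ∧ Exceptional δ d (V n) β (Ω n) ξ} ∧
        dist (p ξ) z ≤ b * (max 1 (house g ξ : ℝ)) ^ (-τ)}.Finite := by
    intro n
    refine fin_lim p _ (fun ξ => max 1 (house g ξ : ℝ)) (fun ξ => le_max_left _ _) (k * (g * (g + 1) / 2) - min c 1)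
      (by linarith [min_le_right c 1]) (fun ε hε => ?_) τ hτ
    refine ⟨|C| * C' ^ k * 2 ^ c, fun T hT => ?_⟩
    have hT0 : 0 < T := by linarith
    set N : ℕ := ⌊T⌋₊ with hN
    have hNT : (N : ℝ) ≤ T := Nat.floor_le hT0.le
    have hN1 : 1 ≤ N := (Nat.one_le_floor_iff T).2 hT
    have hN1' : (1 : ℝ) ≤ N := by exact_mod_cast hN1
    have hTN : T / 2 ≤ N := by
      have h1 : T < N + 1 := Nat.lt_floor_add_one T
      linarith
    have hsub : {ξ | ξ ∈ {ξ : Fin k → ℂ | ξ ∈ Tup k g ∧ Exceptional δ d (V n) β (Ω n) ξ} ∧ max 1 (house g ξ : ℝ) ≤ T} ⊆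
        {ξ : Fin k → ℂ | (∀ i, House g N (ξ i)) ∧ Exceptional δ d (V n) β (Ω n) ξ} := by
      rintro ξ ⟨⟨h1, h2⟩, h3⟩
      exact ⟨of_house h1 (Nat.le_floor ((le_max_right _ _).trans h3)), h2⟩
    obtain ⟨hf, hcard⟩ := h' N hN1
    have hfin : {ξ : Fin k → ℂ | (∀ i, House g N (ξ i)) ∧ Exceptional δ d (V n) β (Ω n) ξ}.Finite := by
      refine (Set.Finite.pi' (fun _ : Fin k => hf)).subset ?_
      rintro ξ ⟨h1, -⟩
      exact h1
    refine ⟨hfin.subset hsub, ?_⟩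
    have h1 := h (V n) (hV n).1 (hV n).2 (Ω n) N hN1
    have h2 : (({ξ | ξ ∈ {ξ : Fin k → ℂ | ξ ∈ Tup k g ∧ Exceptional δ d (V n) β (Ω n) ξ} ∧
        max 1 (house g ξ : ℝ) ≤ T}).ncard : ℝ) ≤
        (({ξ : Fin k → ℂ | (∀ i, House g N (ξ i)) ∧ Exceptional δ d (V n) β (Ω n) ξ}.ncard : ℕ) : ℝ) := by
      exact_mod_cast Set.ncard_le_ncard hsub hfin
    have h3 : (N : ℝ) ^ (-c) ≤ 2 ^ c * T ^ (-c) := by
      calc (N : ℝ) ^ (-c) ≤ (T / 2) ^ (-c) := Real.rpow_le_rpow_of_nonpos (by positivity) hTN (by linarith)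
        _ = 2 ^ c * T ^ (-c) := by
          rw [Real.div_rpow hT0.le (by norm_num), Real.rpow_neg (by norm_num : (0 : ℝ) ≤ 2), div_inv_eq_mul, mul_comm]
    have h4 : (({ξ : ℂ | House g N ξ}.ncard : ℕ) : ℝ) ^ k ≤ (C' * T ^ (g * (g + 1) / 2)) ^ k :=
      pow_le_pow_left₀ (Nat.cast_nonneg _) (hcard.trans (mul_le_mul_of_nonneg_left
        (pow_le_pow_left₀ (Nat.cast_nonneg _) hNT _) hC')) k
    have h5 : (C' * T ^ (g * (g + 1) / 2)) ^ k = C' ^ k * T ^ ((k : ℝ) * (g * (g + 1) / 2)) := by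
      rw [mul_pow, ← pow_mul, ← Real.rpow_natCast T]
      congr 2
      push_cast
      rw [hG]
      ring
    calc (({ξ | ξ ∈ {ξ : Fin k → ℂ | ξ ∈ Tup k g ∧ Exceptional δ d (V n) β (Ω n) ξ} ∧
          max 1 (house g ξ : ℝ) ≤ T}).ncard : ℝ) ≤
          C * (N : ℝ) ^ (-c) * (({ξ : ℂ | House g N ξ}.ncard : ℕ) : ℝ) ^ k := h2.trans h1
      _ ≤ |C| * (N : ℝ) ^ (-c) * (({ξ : ℂ | House g N ξ}.ncard : ℕ) : ℝ) ^ k :=
          mul_le_mul_of_nonneg_right (mul_le_mul_of_nonneg_right (le_abs_self C) (Real.rpow_nonneg (Nat.cast_nonneg _) _))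
            (pow_nonneg (Nat.cast_nonneg _) _)
      _ ≤ |C| * (2 ^ c * T ^ (-c)) * (C' ^ k * T ^ ((k : ℝ) * (g * (g + 1) / 2))) := by
          rw [← h5]
          exact mul_le_mul (mul_le_mul_of_nonneg_left h3 (abs_nonneg C)) h4 (pow_nonneg (Nat.cast_nonneg _) _) (by positivity)
      _ = |C| * C' ^ k * 2 ^ c * T ^ ((k : ℝ) * (g * (g + 1) / 2) - c) := by
          rw [sub_eq_add_neg, Real.rpow_add hT0]
          ring
      _ ≤ |C| * C' ^ k * 2 ^ c * T ^ ((k : ℝ) * (g * (g + 1) / 2) - min c 1 + ε) := by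
          refine mul_le_mul_of_nonneg_left (Real.rpow_le_rpow_of_exponent_le hT ?_) (by positivity)
          linarith [min_le_left c 1]
  choose Z hZ hz using key
  refine ⟨⋃ n, Z n, ?_, fun z hzZ n b => (hz n z (fun hh => hzZ (Set.mem_iUnion.2 ⟨_, hh⟩)) b).subset ?_⟩
  · rw [dimH_iUnion]
    exact iSup_le hZ
  · rintro ξ ⟨h1, h2, h3⟩
    exact ⟨⟨h1, h3⟩, h2⟩

end Pool.Agent.Results.MP_290158_ag.FibresNearGivenPoints
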