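import Pool.Agent.Q138.PS.VH
import Pool.Agent.Q138.PS.VE
import Pool.Agent.Results.MP_290158_ag.CyclicCoverWindows

/-!
# Degree-bounded period relations in families of cyclic covers at the points `1 / t`, `t` close to `α P(n)`

Let `q ≥ 2`. We consider countably many families `C_z : y ^ N = (x - z) ^ e₀ ∏_j (x - a_j) ^ (e_j)` of cyclic covers of the line
(`a_j` distinct nonzero algebraic numbers) with finitely many loops, as in the starting file `CyclicCoverWindows`; for `N = 2` these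
are families of hyperelliptic curves. There are radii `r > 0` such that outside a set of real numbers of Hausdorff dimension at most
`q / (q + 1 / (q 2 ^ (q - 1)))` (that is `8 / 9` for `q = 2`) every `α > 0` has the following property. There is `η > 0` such that
for ALL these families, ALL number fields `K` and ALL degrees `δ` there is `κ > 0` such that for all large `N` and ALL integral
polynomials `P` of degree `q` with positive leading coefficient and coefficients of size at most `N ^ η`: for all but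
`N ^ (1 - κ)` of the `n ≤ N`, for EVERY integer `t` with `|t - ⌊α P(n)⌋| ≤ N ^ κ`: every relation of degree at most `δ` over `K`
between the periods of the fibre over `s = 1 / t` is the value at `s` of a relation over `K[z]`, of degree at most `δ`, which
holds identically on the graph of the period map.
-/

set_option autoImplicit false

namespace Pool.Agent.Results.MP_290158_ag.RelationsAlongRealMultiples

open Finset Filter Topology
open Pool.Agent.Q138.PS
open CyclicCoverWindows (IsClosedPath periods DegreeStatement)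

/-- a family of cyclic covers with finitely many loops -/
structure Family where
  (n N e₀ σ k : ℕ)
  a : Fin n → ℂ
  e : Fin n → ℕ
  ρ : ℝ
  (x y : Fin σ → ℝ → ℂ)
  hN : 0 < N
  he₀ : 0 < e₀
  ha : Function.Injective a
  halg : ∀ j, IsAlgebraic ℚ (a j)
  ha0 : ∀ j, a j ≠ 0
  hρ : 0 < ρ
  path : ∀ s, IsClosedPath N e₀ a e ρ (x s) (y s)

/-- all the periods `∮ x ^ i dx / y ^ l`, `i < n`, `1 ≤ l ≤ k`, over the `σ` loops -/
noncomputable def Family.P (F : Family) (z : ℂ) (v : Fin F.σ × Fin F.k × Fin F.n) : ℂ :=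
  periods (n := F.n) (κ := F.k) F.N F.e₀ F.x F.y z v

/-- the degree `δ` statement over `K` at all the points `1 / t`, `t ∈ S` -/
def AllDegree (F : Family) (K : IntermediateField ℚ ℂ) (r : ℝ) (δ : ℕ) (S : Set ℕ) : Prop :=
  ∀ t ∈ S, 1 / (t : ℝ) < r ∧ DegreeStatement K F.P r δ (1 / (t : K))

theorem windows (F : Family) (K : IntermediateField ℚ ℂ) (hK : FiniteDimensional ℚ K) (δ : ℕ) :
    ∃ r : ℝ, 0 < r ∧ r ≤ F.ρ ∧ ∃ B : ℕ, ∃ c : ℝ, 0 < c ∧ ∃ x₀ : ℕ, ∀ x H : ℕ, x₀ ≤ x → (H : ℝ) ≤ (x : ℝ) ^ c →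
      ∃ T : Finset ℕ, T.card ≤ B ∧ AllDegree F K r δ (Set.Icc x (x + H) \ T) := by
  have : NumberField K := ⟨⟩
  obtain ⟨r, hr, hrρ, c, hc, M, hM⟩ := CyclicCoverWindows.result (κ := F.k) F.hN F.he₀ F.a F.ha F.halg F.ha0 F.e F.hρ F.x F.y
    F.path K δ
  refine ⟨r, hr, hrρ, M, c, hc, 1, fun x H hx hH => ?_⟩
  obtain ⟨T, hT, h⟩ := hM x hx
  refine ⟨T, hT, ?_⟩
  rintro t ⟨⟨ht1, ht2⟩, ht3⟩
  refine h t ht1 ?_ ht3
  have : (t : ℝ) ≤ x + H := by exact_mod_cast ht2
  linarith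

/-- **Theorem.** -/
theorem result (q : ℕ) (hq : 2 ≤ q) {ι : Type} [Countable ι] (F : ι → Family) :
    ∃ r : ι → IntermediateField ℚ ℂ → ℕ → ℝ, (∀ i (K : IntermediateField ℚ ℂ) δ, FiniteDimensional ℚ K → 0 < r i K δ ∧ r i K δ ≤ (F i).ρ) ∧
    ∃ E : Set ℝ, dimH E ≤ ENNReal.ofReal (q / (q + 1 / ((q : ℝ) * 2 ^ (q - 1)))) ∧ ∀ α : ℝ, 0 < α → α ∉ E →
      ∃ η : ℝ, 0 < η ∧ ∀ (i : ι) (K : IntermediateField ℚ ℂ), FiniteDimensional ℚ K → ∀ δ : ℕ,
      ∃ κ : ℝ, 0 < κ ∧ ∀ᶠ N : ℕ in atTop, ∀ P : Polynomial ℤ, P.natDegree = q → 0 < P.leadingCoeff →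
        (∀ j, |((P.coeff j : ℤ) : ℝ)| ≤ (N : ℝ) ^ η) →
        (badG (AllDegree (F i) K (r i K δ) δ) ⌊(N : ℝ) ^ κ⌋₊ α P N : ℝ) ≤ (N : ℝ) ^ (1 - κ) := by
  classical
  choose r hr hrρ B c hc hw using fun (i : ι) (K : {K : IntermediateField ℚ ℂ // FiniteDimensional ℚ K}) (δ : ℕ) =>
    windows (F i) K.1 K.2 δ
  refine ⟨fun i K δ => if h : FiniteDimensional ℚ K then r i ⟨K, h⟩ δ else 0, fun i K δ hK => ?_, ?_⟩
  · simp only [dif_pos hK]
    exact ⟨hr _ _ _, hrρ _ _ _⟩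
  have hC : Countable {K : IntermediateField ℚ ℂ // FiniteDimensional ℚ K} := countF
  obtain ⟨E, hE, hg⟩ := win_tuples (ι := ι × {K : IntermediateField ℚ ℂ // FiniteDimensional ℚ K} × ℕ) q hq
    (fun i => AllDegree (F i.1) i.2.1.1 (r i.1 i.2.1 i.2.2) i.2.2) (fun i S S' hS h t ht => h t (hS ht))
  refine ⟨E, hE, fun α hα hαE => ?_⟩
  obtain ⟨η, hη, h1⟩ := hg α hα hαE
  refine ⟨η, hη, fun i K hK δ => ?_⟩
  simp only [dif_pos hK]
  exact h1 (i, ⟨K, hK⟩, δ) (B i ⟨K, hK⟩ δ) (c i ⟨K, hK⟩ δ) (hc _ _ _) (hw _ _ _)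

end Pool.Agent.Results.MP_290158_ag.RelationsAlongRealMultiples
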