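import Pool.Agent.Q138.PS.VJ
import Pool.Agent.Results.MP_290158_ag.HypergeometricAlgebraicPoints

/-!
# Period relations of bounded degree for tuples of fibres of the hypergeometric families at the algebraic points
`1 / (± t_i + γ)`, `t_i` close to `α P(n)`

Let `q ≥ 2` and let `𝒞` be a countable set of complex numbers. For every finite family `β` of rational numbers which are not
integers let `Y` and `J` be the period matrix and the alternating form of the hypergeometric equation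
`(θ^(2 m) - z ∏_j (θ^2 - β_j^2)) f = 0`, as in the starting file `HypergeometricAlgebraicPoints` (for `β = (1/5, 2/5)` the mirror
quintic family). There are numbers `G(β) ≥ 1` such that outside a set of real numbers of Hausdorff dimension at most
`q / (q + 1 / (q 2 ^ (q - 1)))` (that is `8 / 9` for `q = 2`) every `α > 0` has the following property. There is `η > 0` such that
for ALL `β`, ALL matrices of constants `Ω` and ALL `w_1, …, w_τ` with entries in `𝒞`, ALL `k`, `δ`,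
`d`, ALL algebraic numbers `γ` and both signs `ε` there is `κ > 0` such that for all large `N` and ALL integral polynomials `P` of
degree `q` with positive leading coefficient and coefficients of size at most `N ^ η`: for all but `N ^ (1 - κ)` of the `n ≤ N`,
for ALL `k`-tuples of distinct integers `t_i` in one residue class modulo `G(β)` with `|t_i - ⌊α P(n)⌋| ≤ N ^ κ`: every relation
of degree at most `δ` over a number field of degree at most `d` between `Ω`, `w`, the logarithms of the `ε t_i + γ` and the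
periods `Y Ω` of the fibres at `1 / (ε t_i + γ)` holds for arbitrary logarithms and all matrices `g_i Ω`, `g_i ∈ Sp(J)`.
-/

set_option autoImplicit false

namespace Pool.Agent.Results.MP_290158_ag.SymplecticAlongRealMultiples

open Finset Filter Topology
open Pool.Agent.Q138.PS
open HypergeometricAlgebraicPoints (Generic)

/-- All `k`-tuples of distinct points of `S` are generic. -/
def AllGeneric {m : ℕ} (β : Fin m → ℚ) (Ω : Matrix (Fin (2 * m)) (Fin (2 * m)) ℂ) {τ : ℕ} (w : Fin τ → ℂ) (k δ d : ℕ)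
    (S : Set ℂ) : Prop :=
  ∀ ξ : Fin k → ℂ, Function.Injective ξ → (∀ i, ξ i ∈ S) → Generic δ d β Ω w ξ

/-- the parameters are not integers, and there is at least one of them -/
def Good (x : Σ m : ℕ, Fin m → ℚ) : Prop := 1 ≤ x.1 ∧ ∀ j, ∀ a : ℤ, x.2 j ≠ a

theorem windows (x : Σ m : ℕ, Fin m → ℚ) (hx : Good x) : ∃ G : ℕ, 1 ≤ G ∧
    ∀ (Ω : Matrix (Fin (2 * x.1)) (Fin (2 * x.1)) ℂ) (τ : ℕ) (w : Fin τ → ℂ) (k δ d : ℕ),
      WinS G (AllGeneric x.2 Ω w k δ d) := by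
  obtain ⟨G₀, hG₀⟩ := (HypergeometricAlgebraicPoints.result hx.1 x.2 hx.2).2.1
  refine ⟨G₀ + 1, by omega, fun Ω τ w k δ d g A => ?_⟩
  obtain ⟨ρ, hρ⟩ := trdeg_nat (insert (2 * Real.pi * Complex.I) (Set.range fun p : Fin (2 * x.1) × Fin (2 * x.1) => Ω p.1 p.2))
    ((Set.finite_range _).insert _)
  obtain ⟨E, hE⟩ := hG₀ (G₀ + 1) (by omega) Ω τ k g d δ A
  refine ⟨E, ρ + τ + 1, fun H ξ hξ hp => ?_⟩
  obtain ⟨S, hS, h⟩ := hE H ξ hp hξ w
  rw [hρ] at hS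
  refine ⟨S, by exact_mod_cast hS, ?_⟩
  intro ζ hζ hζS
  choose u hu1 hu2 hu3 hu4 using hζS
  have h1 := (h u (fun i j hij => hζ (by rw [hu4 i, hu4 j, hij])) (fun i => ⟨hu1 i, hu2 i, hu3 i⟩)).2
  have : ζ = fun i => ξ - ((G₀ + 1 : ℕ) : ℂ) * (u i : ℂ) := by
    funext i
    rw [hu4 i]
    push_cast
    ring
  rw [this]
  exact h1

/-- **Theorem.** -/
theorem result (q : ℕ) (hq : 2 ≤ q) (𝒞 : Set ℂ) (h𝒞 : 𝒞.Countable) :
    ∃ G : (m : ℕ) → (Fin m → ℚ) → ℕ, (∀ m β, 1 ≤ G m β) ∧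
    ∃ E : Set ℝ, dimH E ≤ ENNReal.ofReal (q / (q + 1 / ((q : ℝ) * 2 ^ (q - 1)))) ∧ ∀ α : ℝ, 0 < α → α ∉ E →
      ∃ η : ℝ, 0 < η ∧ ∀ (m : ℕ) (β : Fin m → ℚ), 1 ≤ m → (∀ j, ∀ a : ℤ, β j ≠ a) →
      ∀ (Ω : Matrix (Fin (2 * m)) (Fin (2 * m)) ℂ) (τ : ℕ) (w : Fin τ → ℂ), (∀ i j, Ω i j ∈ 𝒞) → (∀ j, w j ∈ 𝒞) →
      ∀ k δ d : ℕ, ∀ γ : ℂ, IsAlgebraic ℚ γ → ∀ ε : ℤ, ε = 1 ∨ ε = -1 →
      ∃ κ : ℝ, 0 < κ ∧ ∀ᶠ N : ℕ in atTop, ∀ P : Polynomial ℤ, P.natDegree = q → 0 < P.leadingCoeff →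
        (∀ j, |((P.coeff j : ℤ) : ℝ)| ≤ (N : ℝ) ^ η) →
        (badG (fun S => ∀ a : ℕ, AllGeneric β Ω w k δ d ((fun t : ℕ => (ε : ℂ) * t + γ) '' (S ∩ {t | t % G m β = a % G m β})))
          ⌊(N : ℝ) ^ κ⌋₊ α P N : ℝ) ≤ (N : ℝ) ^ (1 - κ) := by
  classical
  choose G hG hw using windows
  refine ⟨fun m β => if h : Good ⟨m, β⟩ then G ⟨m, β⟩ h else 1, fun m β => ?_, ?_⟩
  · show 1 ≤ (if h : Good ⟨m, β⟩ then G ⟨m, β⟩ h else 1)
    split_ifs
    · exact hG _ _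
    · exact le_rfl
  have hC : Countable {x : ℂ // x ∈ 𝒞} := h𝒞.to_subtype
  obtain ⟨E, hE, hg⟩ := win_algS (ι := Σ x : {x : Σ m : ℕ, Fin m → ℚ // Good x},
      (Fin (2 * x.1.1) → Fin (2 * x.1.1) → {x : ℂ // x ∈ 𝒞}) × (Σ τ : ℕ, Fin τ → {x : ℂ // x ∈ 𝒞}) × ℕ × ℕ × ℕ)
    q hq (fun i => G i.1.1 i.1.2) (fun i => hG _ _)
    (fun i => AllGeneric i.1.1.2 (Matrix.of fun a b => (i.2.1 a b : ℂ)) (fun j => (i.2.2.1.2 j : ℂ)) i.2.2.2.1 i.2.2.2.2.1
      i.2.2.2.2.2)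
    (fun i S S' hS h ξ hξ hξS => h ξ hξ fun j => hS (hξS j))
    (fun i => hw _ _ _ _ _ _ _ _)
  refine ⟨E, hE, fun α hα hαE => ?_⟩
  obtain ⟨η, hη, h1⟩ := hg α hα hαE
  refine ⟨η, hη, fun m β hm hβ Ω τ w hΩ hwC k δ d γ hγ ε hε => ?_⟩
  have hgood : Good ⟨m, β⟩ := ⟨hm, hβ⟩
  have h2 := h1 ⟨⟨⟨m, β⟩, hgood⟩, fun a b => ⟨Ω a b, hΩ a b⟩, ⟨τ, fun j => ⟨w j, hwC j⟩⟩, k, δ, d⟩ γ hγ ε hε
  simp only [dif_pos hgood]
  exact h2

end Pool.Agent.Results.MP_290158_ag.SymplecticAlongRealMultiples
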